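import Pool.Agent.H77.TF.Pri

/-!
# Module UNI of helper77's project TF (seat helper39)
-/

set_option autoImplicit false

open MvPolynomial Module

namespace Pool.Agent.H39.TF

open Pool.Agent.H77.TF

/-- The linear combinations of the `x_i` as a linear map. -/
noncomputable def lc {K F : Type} [Field K] [Field F] [Algebra K F] {l : ℕ} (x : Fin l → F) :
    (Fin l → K) →ₗ[K] F := Fintype.linearCombination K x

lemma lc_apply {K F : Type} [Field K] [Field F] [Algebra K F] {l : ℕ} (x : Fin l → F)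
    (a : Fin l → K) : lc x a = ∑ i, a i • x i := by
  simp [lc, Fintype.linearCombination_apply]

/-- Two independent vectors in the kernel of a map of small rank. -/
lemma exists_two {K F : Type} [Field K] [Field F] [Algebra K F] {m : ℕ} (x : Fin (m + 1) → F)
    (h : finrank K (Submodule.span K (Set.range x)) < m) :
    ∃ a b : Fin (m + 1) → K, a ≠ 0 ∧ (∀ c : K, b ≠ c • a) ∧
      ∑ i, a i • x i = 0 ∧ ∑ i, b i • x i = 0 := by
  have h1 : LinearMap.range (lc (K := K) x) = Submodule.span K (Set.range x) :=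
    Fintype.range_linearCombination K x
  have h2 := LinearMap.finrank_range_add_finrank_ker (lc (K := K) x)
  rw [h1, Module.finrank_fin_fun] at h2
  have h3 : 2 ≤ finrank K (LinearMap.ker (lc (K := K) x)) := by omega
  obtain ⟨a, ha, ha0⟩ : ∃ a ∈ LinearMap.ker (lc (K := K) x), a ≠ 0 := by
    by_contra hc
    push Not at hc
    have : LinearMap.ker (lc (K := K) x) = ⊥ := (Submodule.eq_bot_iff _).2 hc
    rw [this, finrank_bot] at h3
    omega
  obtain ⟨b, hb, hb0⟩ : ∃ b ∈ LinearMap.ker (lc (K := K) x), b ∉ Submodule.span K {a} := by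
    by_contra hc
    push Not at hc
    have h4 : LinearMap.ker (lc (K := K) x) ≤ Submodule.span K {a} := hc
    have h5 := Submodule.finrank_mono h4
    have h6 := finrank_span_singleton (K := K) ha0
    omega
  refine ⟨a, b, ha0, fun c hc => hb0 ?_, ?_, ?_⟩
  · rw [hc]
    exact Submodule.smul_mem _ _ (Submodule.mem_span_singleton_self a)
  · rw [← lc_apply]; exact ha
  · rw [← lc_apply]; exact hb

lemma comb_zero {F : Type} [Field F] {m : ℕ} (y : Fin m → F) (C : Fin m → Fin m → F)
    (U : Fin m → F) (hy : ∀ j, ∑ k, y k * C k j = 0) : ∑ k, y k * ∑ j, C k j * U j = 0 := by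
  simp only [Finset.mul_sum]
  rw [Finset.sum_comm]
  refine Finset.sum_eq_zero fun j _ => ?_
  calc ∑ k, y k * (C k j * U j) = (∑ k, y k * C k j) * U j := by
        rw [Finset.sum_mul]
        exact Finset.sum_congr rfl fun k _ => by ring
    _ = 0 := by rw [hy, zero_mul]

/-- If the determinant is in the prime ideal `P`, then so are two independent linear forms. -/
lemma det_mem (hM : S_MOO) {K : Type} [Field K] [Fintype K] {m : ℕ}
    (u : Fin m → Fin (m + 1) → MvPolynomial (Fin (m + 1)) K)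
    (c : Fin m → Fin m → MvPolynomial (Fin (m + 1)) K)
    (h : ∀ k : Fin m, frob K (m + 1) k = ∑ j, c k j • u j)
    (P : Ideal (MvPolynomial (Fin (m + 1)) K)) [hP : P.IsPrime] (hdet : (Matrix.of c).det ∈ P) :
    ∃ a b : Fin (m + 1) → K, a ≠ 0 ∧ (∀ d : K, b ≠ d • a) ∧ lin a ∈ P ∧ lin b ∈ P := by
  classical
  let F := FractionRing (MvPolynomial (Fin (m + 1)) K ⧸ P)
  let φ : MvPolynomial (Fin (m + 1)) K →ₐ[K] F :=
    (IsScalarTower.toAlgHom K (MvPolynomial (Fin (m + 1)) K ⧸ P) F).comp (Ideal.Quotient.mkₐ K P)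
  have hφ : ∀ f, φ f = 0 ↔ f ∈ P := by
    intro f
    have h1 : φ f = algebraMap (MvPolynomial (Fin (m + 1)) K ⧸ P) F (Ideal.Quotient.mk P f) := rfl
    rw [h1, map_eq_zero_iff _ (IsFractionRing.injective _ F), Ideal.Quotient.eq_zero_iff_mem]
  have hdet' : ((Matrix.of c).map φ).det = 0 := by
    have h1 : ((Matrix.of c).map φ).det = φ ((Matrix.of c).det) := by
      rw [AlgHom.map_det]; rfl
    rw [h1, hφ]; exact hdet
  obtain ⟨y, hy0, hy⟩ := Matrix.exists_vecMul_eq_zero_iff.2 hdet'
  have hx : ∀ i, ∑ k, y k * (φ (X i)) ^ (Fintype.card K ^ (k : ℕ)) = 0 := by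
    intro i
    have h1 : ∀ k : Fin m, (φ (X i)) ^ (Fintype.card K ^ (k : ℕ)) =
        ∑ j, φ (c k j) * φ (u j i) := by
      intro k
      have h2 : (X i : MvPolynomial (Fin (m + 1)) K) ^ (Fintype.card K ^ (k : ℕ)) =
          ∑ j, c k j * u j i := by
        have h3 := congrFun (h k) i
        rw [Finset.sum_apply] at h3
        exact h3
      rw [← map_pow, h2, map_sum]
      exact Finset.sum_congr rfl fun j _ => by rw [map_mul]
    simp only [h1]
    refine comb_zero y (fun k j => φ (c k j)) (fun j => φ (u j i)) fun j => ?_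
    have h4 := congrFun hy j
    simpa only [Matrix.vecMul, dotProduct, Matrix.map_apply, Matrix.of_apply, Pi.zero_apply] using h4
  obtain ⟨a, b, ha, hb, ha1, hb1⟩ := exists_two _ (hM K F (m + 1) m (fun i => φ (X i)) y hy0 hx)
  have hlin : ∀ a : Fin (m + 1) → K, φ (lin a) = ∑ i, a i • φ (X i) := by
    intro a
    unfold lin
    rw [map_sum]
    refine Finset.sum_congr rfl fun i _ => ?_
    rw [map_mul, Algebra.smul_def, ← MvPolynomial.algebraMap_eq, AlgHom.commutes]
  exact ⟨a, b, ha, hb, (hφ _).1 (by rw [hlin, ha1]), (hφ _).1 (by rw [hlin, hb1])⟩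

theorem uni (hM : S_MOO) : S_UNI := by
  intro K _ _ m u c h
  by_contra hu
  have hdet : (Matrix.of c).det ≠ 0 := by
    intro h0
    obtain ⟨a, b, ha, _, ha', _⟩ := det_mem hM u c h ⊥ (by rw [h0]; exact Submodule.zero_mem _)
    exact lin_ne_zero ha ((Submodule.mem_bot _).1 ha')
  obtain ⟨π, hπ, hπd⟩ := WfDvdMonoid.exists_irreducible_factor hu hdet
  have hπp : Prime π := UniqueFactorizationMonoid.irreducible_iff_prime.1 hπ
  have : (Ideal.span {π}).IsPrime := (Ideal.span_singleton_prime hπp.ne_zero).2 hπp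
  obtain ⟨a, b, ha, hb, ha', hb'⟩ := det_mem hM u c h (Ideal.span {π})
    (Ideal.mem_span_singleton.2 hπd)
  rw [Ideal.mem_span_singleton] at ha' hb'
  obtain ⟨hpa, hab⟩ := pri K (m + 1) a ha
  have hassoc : Associated π (lin a) := (hπ.dvd_irreducible_iff_associated hpa.irreducible).1 ha'
  obtain ⟨d, hd⟩ := hab b (hassoc.symm.dvd.trans hb')
  exact hb d hd

end Pool.Agent.H39.TF
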