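import Pool.Agent.H77.TF.Pri

/-!
# Module STP of helper77's project TF (seat helper39)
-/

set_option autoImplicit false

open MvPolynomial Module

namespace Pool.Agent.H39.TF

open Pool.Agent.H77.TF

theorem stp (hF : S_FUL) : S_STP := by
  intro K _ _ m ν A h hh hA hAh hW φ hφ hhφ
  classical
  obtain ⟨j, hj⟩ : ∃ j, h j ≠ 0 := by
    by_contra hc
    push Not at hc
    exact hh (funext hc)
  obtain ⟨ρ, hs, h0, hr, hk⟩ := sub K m h j hj
  have hρC : ∀ c : K, ρ (C c) = C c := fun c => by rw [algHom_C, algebraMap_eq]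
  -- linear forms and vector fields under `ρ`
  have hlin : ∀ (b : Fin m → K), ρ (lin (j.insertNth 0 b : Fin (m + 1) → K)) = lin b := by
    intro b
    unfold lin
    rw [map_sum, Fin.sum_univ_succAbove _ j]
    simp only [map_mul, hρC, Fin.insertNth_apply_same, Fin.insertNth_apply_succAbove, map_zero,
      zero_mul, zero_add, hs]
  set v : Fin m → MvPolynomial (Fin m) K := fun i => ρ (φ (j.succAbove i)) with hv
  have hevl : ∀ (b : Fin m → K), ρ (evl (j.insertNth 0 b : Fin (m + 1) → K) φ) = evl b v := by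
    intro b
    unfold evl
    rw [map_sum, Fin.sum_univ_succAbove _ j]
    simp only [map_mul, hρC, Fin.insertNth_apply_same, Fin.insertNth_apply_succAbove, map_zero,
      zero_mul, zero_add]
    rfl
  have hρh : ∀ f, lin h ∣ f → ρ f = 0 := by
    rintro f ⟨g, rfl⟩
    rw [map_mul, h0, zero_mul]
  have htan : ∀ b : Fin m → K, b ≠ 0 → lin b ∣ evl b v := by
    intro b hb
    set a : Fin (m + 1) → K := j.insertNth 0 b with ha
    have haj : a j = 0 := by rw [ha, Fin.insertNth_apply_same]
    have ha0 : a ≠ 0 := by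
      intro h1
      apply hb
      funext i
      have := congrFun h1 (j.succAbove i)
      rw [ha, Fin.insertNth_apply_succAbove] at this
      exact this
    have hind : LinearIndependent K ![a, h] := by
      rw [LinearIndependent.pair_iff]
      intro s t hst
      have h1 := congrFun hst j
      simp only [Pi.add_apply, Pi.smul_apply, smul_eq_mul, haj, mul_zero, zero_add,
        Pi.zero_apply] at h1
      have ht : t = 0 := (mul_eq_zero.1 h1).resolve_right hj
      rw [ht, zero_smul, add_zero] at hst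
      exact ⟨(smul_eq_zero.1 hst).resolve_right ha0, ht⟩
    have hfr : finrank K (Submodule.span K ({a, h} : Set (Fin (m + 1) → K))) = 2 := by
      have h1 := finrank_span_eq_card hind
      rw [Matrix.range_cons, Matrix.range_cons, Matrix.range_empty, Set.union_empty,
        Set.singleton_union] at h1
      simpa using h1
    obtain ⟨i, hi⟩ := hW _ hfr (Submodule.subset_span (by simp))
    rw [Submodule.mem_span_pair] at hi
    obtain ⟨s, t, hst⟩ := hi
    have hs0 : s ≠ 0 := by
      intro h1
      rw [h1, zero_smul, zero_add] at hst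
      exact hAh i t hst.symm
    have h2 : ρ (lin (A i)) = C s * lin b := by
      rw [← hst, lin_add, lin_smul, lin_smul, map_add, map_mul, map_mul, h0, hρC, hlin, mul_zero,
        add_zero]
    have h3 : ρ (evl (A i) φ) = C s * evl b v := by
      rw [← hst, evl_add, evl_smul, evl_smul, map_add, map_mul, map_mul, hρh _ hhφ, hρC, hevl,
        mul_zero, add_zero]
    have h4 : ρ (lin (A i)) ∣ ρ (evl (A i) φ) := map_dvd ρ (hφ i)
    rw [h2, h3] at h4
    exact (mul_dvd_mul_iff_left (by rw [Ne, C_eq_zero]; exact hs0)).1 h4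
  obtain ⟨r, hrv⟩ := hF K m v htan
  set f : Fin m → MvPolynomial (Fin (m + 1)) K := fun k => rename j.succAbove (r k) with hf
  set ψ : Fin (m + 1) → MvPolynomial (Fin (m + 1)) K :=
    φ - ∑ k : Fin m, f k • frob K (m + 1) k with hψ
  have hψs : ∀ i, ρ (ψ (j.succAbove i)) = 0 := by
    intro i
    have h1 := congrFun hrv i
    rw [Finset.sum_apply] at h1
    rw [hψ, Pi.sub_apply, Finset.sum_apply, map_sub, map_sum]
    have h2 : ρ (φ (j.succAbove i)) = v i := rfl
    rw [h2, h1, sub_eq_zero]
    refine Finset.sum_congr rfl fun k _ => ?_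
    simp only [Pi.smul_apply, smul_eq_mul, map_mul, frob, map_pow, hs, hf, hr]
  have hdivf : ∀ a : Fin (m + 1) → K, lin a ∣ evl a (∑ k : Fin m, f k • frob K (m + 1) k) := by
    intro a
    rw [evl_vsum]
    refine Finset.dvd_sum fun k _ => ?_
    rw [evl_vsmul]
    exact dvd_mul_of_dvd_right (evl_frob_dvd a k) _
  have hψj : ρ (ψ j) = 0 := by
    have h1 : lin h ∣ evl h ψ := by
      rw [hψ, evl_vsub]
      exact dvd_sub hhφ (hdivf h)
    have h2 := hρh _ h1
    unfold evl at h2
    rw [map_sum, Fin.sum_univ_succAbove _ j] at h2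
    simp only [map_mul, hρC, hψs, mul_zero, Finset.sum_const_zero, add_zero] at h2
    exact (mul_eq_zero.1 h2).resolve_left (by rw [C_eq_zero]; exact hj)
  have hψ0 : ∀ i, lin h ∣ ψ i := by
    intro i
    refine hk _ ?_
    rcases eq_or_ne i j with rfl | hij
    · exact hψj
    · obtain ⟨k, rfl⟩ := Fin.exists_succAbove_eq hij
      exact hψs k
  choose φ' hφ' using hψ0
  have heq : lin h • φ' = ψ := by
    funext i
    rw [Pi.smul_apply, smul_eq_mul, ← hφ']
  refine ⟨φ', fun i => ?_, f, heq⟩
  obtain ⟨hp, hab⟩ := pri K (m + 1) (A i) (hA i)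
  have h1 : lin (A i) ∣ evl (A i) ψ := by
    rw [hψ, evl_vsub]
    exact dvd_sub (hφ i) (hdivf (A i))
  rw [← heq, evl_vsmul] at h1
  rcases hp.dvd_or_dvd h1 with h2 | h2
  · exfalso
    obtain ⟨c, hc⟩ := hab h h2
    have hc0 : c ≠ 0 := by
      rintro rfl
      exact hh (by rw [hc, zero_smul])
    refine hAh i c⁻¹ ?_
    rw [hc, smul_smul, inv_mul_cancel₀ hc0, one_smul]
  · exact h2

end Pool.Agent.H39.TF
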